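import Pool.Agent.P8H96.SP.Stm

set_option autoImplicit false

open Finset Polynomial Module Pool.Agent.H388SL Pool.Agent.Y947.DL Pool.Agent.Y947.RL

namespace Pool.Agent.P8H20.SP

open Pool.Agent.P8H96.SP

theorem card : S_CARD := by
  intro k M _ _ _ _ _
  classical
  constructor
  · intro σ
    letI : Algebra k ℂ := (σ : k →+* ℂ).toAlgebra
    have hmap : ∀ x : k, algebraMap k ℂ x = σ x := fun x => rfl
    have hc : Fintype.card (M →ₐ[k] ℂ) = finrank k M := AlgHom.card k M ℂ
    rw [← hc, ← Fintype.card_coe]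
    refine Fintype.card_congr
      { toFun := fun τ => { (τ.1 : M →+* ℂ) with
          commutes' := fun x => by
            have := (Finset.mem_filter.1 τ.2).2 x
            exact this }
        invFun := fun f => ⟨(f : M →+* ℂ).toRatAlgHom, by
          refine Finset.mem_filter.2 ⟨Finset.mem_univ _, fun x => ?_⟩
          exact f.commutes x⟩
        left_inv := fun τ => by
          apply Subtype.ext
          apply AlgHom.ext
          intro x
          rfl
        right_inv := fun f => by
          apply AlgHom.ext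
          intro x
          rfl }
  · intro φ
    have h : ∀ σ : k →ₐ[ℚ] ℂ, cl (M := M) σ = Finset.univ.filter
        (fun τ : M →ₐ[ℚ] ℂ => ((τ : M →+* ℂ).comp (algebraMap k M)).toRatAlgHom = σ) := by
      intro σ
      unfold cl
      apply Finset.filter_congr
      intro τ _
      constructor
      · intro h
        apply AlgHom.ext
        intro x
        exact h x
      · rintro rfl x
        rfl
    simp only [h]
    exact Finset.sum_fiberwise Finset.univ _ φ

theorem trf : S_TRF := by
  intro k M _ _ _ _ _ β σ φ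
  classical
  have h := (card (IntermediateField.adjoin k {β}) M).1
  set B := IntermediateField.adjoin k {β} with hB
  let g : (M →ₐ[ℚ] ℂ) → (B →ₐ[ℚ] ℂ) := fun τ => ((τ : M →+* ℂ).comp (algebraMap B M)).toRatAlgHom
  have hg : ∀ (τ : M →ₐ[ℚ] ℂ) (x : B), g τ x = τ (x : M) := fun τ x => rfl
  have hmaps : ∀ τ ∈ cl (M := M) σ, g τ ∈ cl (M := B) σ := by
    intro τ hτ
    have hτ' := (Finset.mem_filter.1 hτ).2
    refine Finset.mem_filter.2 ⟨Finset.mem_univ _, fun x => ?_⟩
    exact hτ' x
  rw [← Finset.sum_fiberwise_of_maps_to hmaps, Finset.mul_sum]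
  refine Finset.sum_congr rfl fun y hy => ?_
  have hy' := (Finset.mem_filter.1 hy).2
  have hset : (cl (M := M) σ).filter (fun τ => g τ = y) = cl (M := M) y := by
    ext τ
    rw [Finset.mem_filter]
    constructor
    · rintro ⟨_, rfl⟩
      exact Finset.mem_filter.2 ⟨Finset.mem_univ _, fun x => rfl⟩
    · intro hτ
      have hτ' := (Finset.mem_filter.1 hτ).2
      refine ⟨Finset.mem_filter.2 ⟨Finset.mem_univ _, fun x => ?_⟩, ?_⟩
      · have h1 := hτ' (algebraMap k B x)
        have h2 := hy' x
        rw [← h2, ← h1]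
        rfl
      · apply AlgHom.ext
        intro x
        exact hτ' x
  rw [hset]
  have hc : ∀ τ ∈ cl (M := M) y, φ (τ β) = φ (y (IntermediateField.AdjoinSimple.gen k β)) := by
    intro τ hτ
    have hτ' := (Finset.mem_filter.1 hτ).2 (IntermediateField.AdjoinSimple.gen k β)
    rw [← hτ']
    rfl
  rw [Finset.sum_congr rfl hc, Finset.sum_const, h y, nsmul_eq_mul]

theorem real : S_REAL := by
  refine ⟨170 * 18 ^ 6, by norm_num, ?_⟩
  intro d s hd hs h
  have hl2 : (69 / 100 : ℝ) ≤ Real.log 2 := by have := Real.log_two_gt_d9; linarith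
  have hl2' : Real.log 2 ≤ 70 / 100 := by have := Real.log_two_lt_d9; linarith
  set L := Real.log (2 * s) with hL
  set y := Real.log (2 * d) with hy
  have hLs : L = Real.log 2 + Real.log s := Real.log_mul (by norm_num) (by linarith)
  have hls : 0 ≤ Real.log s := Real.log_nonneg hs
  have hyd : y = Real.log 2 + Real.log d := Real.log_mul (by norm_num) (by linarith)
  have hld : 0 ≤ Real.log d := Real.log_nonneg hd
  have hL1 : 69 / 100 ≤ L := by linarith
  have h1 : 2 * d ≤ 10 * s ^ 2 * (1 + 2 * y) := by linarith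
  have h2 : y ≤ Real.log (10 * s ^ 2 * (1 + 2 * y)) := Real.log_le_log (by linarith) h1
  have hy0 : 0 < 1 + 2 * y := by linarith
  rw [Real.log_mul (by positivity) hy0.ne', Real.log_mul (by norm_num) (by positivity), Real.log_pow] at h2
  have h3 : Real.log (1 + 2 * y) ≤ (1 + 2 * y) / 4 - 1 + Real.log 4 := by
    have h4 := Real.log_le_sub_one_of_pos (show 0 < (1 + 2 * y) / 4 by positivity)
    rw [Real.log_div hy0.ne' (by norm_num)] at h4
    linarith
  have hl4 : Real.log 4 = 2 * Real.log 2 := by
    rw [show (4 : ℝ) = 2 ^ 2 by norm_num, Real.log_pow]; norm_num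
  have hl10 : Real.log 10 ≤ 4 * Real.log 2 := by
    have h4 : Real.log 16 = 4 * Real.log 2 := by
      rw [show (16 : ℝ) = 2 ^ 4 by norm_num, Real.log_pow]; norm_num
    rw [← h4]
    exact Real.log_le_log (by norm_num) (by norm_num)
  push_cast at h2
  have hy16 : y ≤ 16 * L := by linarith
  have h5 : 1 + 2 * y ≤ 34 * L := by linarith
  have h6 : 1 + Real.log d ≤ 18 * L := by linarith
  have h7 : d ≤ 170 * s ^ 2 * L := by
    calc d ≤ 5 * s ^ 2 * (1 + 2 * y) := h
      _ ≤ 5 * s ^ 2 * (34 * L) := mul_le_mul_of_nonneg_left h5 (by positivity)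
      _ = _ := by ring
  calc d * (1 + Real.log d) ^ 6 ≤ (170 * s ^ 2 * L) * (18 * L) ^ 6 :=
        mul_le_mul h7 (pow_le_pow_left₀ (by linarith) h6 6) (by positivity) (by positivity)
    _ = _ := by ring

end Pool.Agent.P8H20.SP
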