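import Pool.Agent.P8H96.SP.Stm
import Pool.Agent.P8H32.RR.Dsc

set_option autoImplicit false

open Finset Polynomial Module Pool.Agent.H388SL Pool.Agent.Y947.DL Pool.Agent.Y947.RL

namespace Pool.Agent.P8H20.SP

open Pool.Agent.P8H96.SP

/-- discriminants and ring homomorphisms -/
theorem discr_map_monic {A B : Type} [CommRing A] [CommRing B] [Nontrivial B] (f : A →+* B) {P : A[X]}
    (hm : P.Monic) (hpos : 0 < P.natDegree) : (P.map f).discr = f P.discr := by
  have hA : Nontrivial A := f.domain_nontrivial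
  have hdeg : (P.map f).natDegree = P.natDegree := hm.natDegree_map f
  have h1 := resultant_deriv (f := P) (natDegree_pos_iff_degree_pos.mp hpos)
  have h2 := resultant_deriv (f := P.map f) (natDegree_pos_iff_degree_pos.mp (by rw [hdeg]; exact hpos))
  rw [hm.leadingCoeff, mul_one] at h1
  rw [(hm.map f).leadingCoeff, mul_one, hdeg] at h2
  have h3 := congrArg f h1
  rw [← resultant_map_map, map_mul, ← derivative_map, h2, map_pow, map_neg, map_one] at h3
  have hu : IsUnit ((-1 : B) ^ (P.natDegree * (P.natDegree - 1) / 2)) := (isUnit_one.neg).pow _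
  exact hu.mul_left_cancel h3

theorem one_le_prod_prim (m : ℕ) (hm : 0 < m) (δ : ℤ[X])
    (h : ∀ ω : ℂ, IsPrimitiveRoot ω m → aeval ω δ ≠ 0) :
    1 ≤ ∏ ω ∈ primitiveRoots m ℂ, ‖aeval ω δ‖ := by
  have hinj : Function.Injective (Int.castRingHom ℂ) := RingHom.injective_int _
  have hNZ : NeZero (m : ℂ) := ⟨by exact_mod_cast hm.ne'⟩
  have hΦm : (cyclotomic m ℤ).Monic := cyclotomic.monic m ℤ
  have h1 := resultant_eq_prod_eval ((cyclotomic m ℤ).map (Int.castRingHom ℂ)) (δ.map (Int.castRingHom ℂ))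
    δ.natDegree (by rw [natDegree_map_eq_of_injective hinj]) (IsAlgClosed.splits _)
  rw [(hΦm.map _).leadingCoeff, one_pow, one_mul, hΦm.natDegree_map, resultant_map_map,
    map_cyclotomic_int, cyclotomic.roots_eq_primitiveRoots_val] at h1
  have h2 : (Multiset.map (fun x => eval x (δ.map (Int.castRingHom ℂ))) (primitiveRoots m ℂ).val).prod =
      ∏ ω ∈ primitiveRoots m ℂ, aeval ω δ := by
    rw [Finset.prod_eq_multiset_prod]
    congr 1
    refine Multiset.map_congr rfl fun ω _ => ?_
    rw [aeval_def, eval_map]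
    rfl
  rw [h2] at h1
  have h3 : ∏ ω ∈ primitiveRoots m ℂ, aeval ω δ ≠ 0 := by
    rw [Finset.prod_ne_zero_iff]
    intro ω hω
    exact h ω ((mem_primitiveRoots hm).1 hω)
  have h4 := congrArg norm h1
  rw [norm_prod, eq_intCast, Complex.norm_intCast] at h4
  rw [← h4]
  have h5 : (resultant (cyclotomic m ℤ) δ (cyclotomic m ℤ).natDegree δ.natDegree) ≠ 0 := by
    intro h0
    rw [h0, map_zero] at h1
    exact h3 h1.symm
  exact_mod_cast Int.one_le_abs h5

theorem db : S_DB := by
  intro m F hF hpos hnd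
  have hm := hF.hm
  have hmon := hF.monic
  have hsp : ∀ ω : ℂ, (sp ω F).discr = aeval ω F.discr := by
    intro ω
    exact discr_map_monic _ hmon hpos
  have hne : ∀ ω : ℂ, IsPrimitiveRoot ω m → aeval ω F.discr ≠ 0 := by
    intro ω hω h0
    have hPm : (sp ω F).Monic := hmon.map _
    have hPd : (sp ω F).natDegree = F.natDegree := hmon.natDegree_map _
    obtain ⟨b, hb, hP⟩ := P8H32.RR.exists_fam (sp ω F) hPm
    have h1 := P8H32.RR.discr_fam hPm (by rw [hPd]; exact hpos) hb hP
    rw [hsp, h0, norm_zero] at h1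
    have hnd' := hnd ω hω
    have hinj : Function.Injective b := by
      rw [hb] at hnd'
      intro i j hij
      exact Multiset.inj_on_of_nodup_map hnd' i (Finset.mem_univ_val i) j (Finset.mem_univ_val j) hij
    obtain ⟨i, -, hi⟩ := Finset.prod_eq_zero_iff.1 h1.symm
    obtain ⟨j, hj, hij⟩ := Finset.prod_eq_zero_iff.1 hi
    exact (Finset.ne_of_mem_erase hj) (hinj (sub_eq_zero.mp (norm_eq_zero.mp hij))).symm
  unfold meanP
  refine div_nonneg ?_ (Nat.cast_nonneg _)
  have h1 := one_le_prod_prim m hm F.discr hne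
  have h2 : ∑ ω ∈ primitiveRoots m ℂ, Real.log ‖(sp ω F).discr‖ =
      Real.log (∏ ω ∈ primitiveRoots m ℂ, ‖aeval ω F.discr‖) := by
    rw [Real.log_prod]
    · refine Finset.sum_congr rfl fun ω _ => ?_
      rw [hsp]
    · intro ω hω
      exact norm_ne_zero_iff.2 (hne ω ((mem_primitiveRoots hm).1 hω))
  rw [h2]
  exact Real.log_nonneg h1

end Pool.Agent.P8H20.SP
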